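import Pool.Agent.Helper159.ClosedSet

/-!
# MP_1e8505_an, Q1: the chain `1 + *ω + ω + 1` is attainable
-/

open Filter Topology Set

namespace Pool.Agent.Results.MP_1e8505_an.ChainAttainable

/-- `ℤ` with a least and a greatest element adjoined, placed in `[-1, 1]` -/
noncomputable def g (k : ℤ) : ℝ := (k : ℝ) / (1 + |(k : ℝ)|)

noncomputable def f : WithBot (WithTop ℤ) → ℝ
  | ⊥ => -1
  | ((⊤ : WithTop ℤ) : WithBot (WithTop ℤ)) => 1
  | (((k : ℤ) : WithTop ℤ) : WithBot (WithTop ℤ)) => g k

theorem g_lt (k : ℤ) : -1 < g k ∧ g k < 1 := by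
  unfold g
  have h : 0 < 1 + |(k : ℝ)| := by positivity
  constructor
  · rw [lt_div_iff₀ h]
    have := neg_abs_le (k : ℝ)
    linarith
  · rw [div_lt_one h]
    have := le_abs_self (k : ℝ)
    linarith

theorem g_strictMono : StrictMono g := by
  intro a b hab
  unfold g
  have ha : 0 < 1 + |(a : ℝ)| := by positivity
  have hb : 0 < 1 + |(b : ℝ)| := by positivity
  have hab' : (a : ℝ) < b := by exact_mod_cast hab
  rw [div_lt_div_iff₀ ha hb]
  rcases abs_cases (a : ℝ) with ⟨h1, h2⟩ | ⟨h1, h2⟩ <;>
    rcases abs_cases (b : ℝ) with ⟨h3, h4⟩ | ⟨h3, h4⟩ <;> rw [h1, h3] <;> nlinarith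

theorem f_strictMono : StrictMono f := by
  intro a b hab
  induction a using WithBot.recBotCoe with
  | bot =>
    induction b using WithBot.recBotCoe with
    | bot => exact absurd hab (lt_irrefl _)
    | coe b =>
      induction b using WithTop.recTopCoe with
      | top => show (-1 : ℝ) < 1; norm_num
      | coe b => exact (g_lt b).1
  | coe a =>
    induction b using WithBot.recBotCoe with
    | bot => exact absurd hab (not_lt_bot)
    | coe b =>
      rw [WithBot.coe_lt_coe] at hab
      induction a using WithTop.recTopCoe with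
      | top => exact absurd hab not_top_lt
      | coe a =>
        induction b using WithTop.recTopCoe with
        | top => exact (g_lt a).2
        | coe b => exact g_strictMono (WithTop.coe_lt_coe.1 hab)

theorem tendsto_g : Tendsto (fun n : ℕ => g n) atTop (𝓝 1) := by
  have h1 : Tendsto (fun n : ℕ => 1 - 1 / ((n : ℝ) + 1)) atTop (𝓝 (1 - 0)) :=
    tendsto_const_nhds.sub tendsto_one_div_add_atTop_nhds_zero_nat
  rw [sub_zero] at h1
  refine h1.congr fun n => ?_
  unfold g
  have h2 : (0 : ℝ) < (n : ℝ) + 1 := by positivity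
  rw [Int.cast_natCast, abs_of_nonneg (Nat.cast_nonneg n)]
  field_simp
  ring

theorem tendsto_g' : Tendsto (fun n : ℕ => g (-n)) atTop (𝓝 (-1)) := by
  have h := tendsto_g.neg
  refine h.congr fun n => ?_
  unfold g
  push_cast
  rw [abs_neg]
  ring

theorem range_f : range f = insert 1 (range fun n : ℕ => g n) ∪
    insert (-1) (range fun n : ℕ => g (-n)) := by
  ext x
  constructor
  · rintro ⟨a, rfl⟩
    induction a using WithBot.recBotCoe with
    | bot => exact Or.inr (Or.inl rfl)
    | coe a =>
      induction a using WithTop.recTopCoe with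
      | top => exact Or.inl (Or.inl rfl)
      | coe a =>
        rcases le_total 0 a with h | h
        · obtain ⟨n, rfl⟩ := Int.eq_ofNat_of_zero_le h
          exact Or.inl (Or.inr ⟨n, rfl⟩)
        · obtain ⟨n, hn⟩ := Int.eq_ofNat_of_zero_le (neg_nonneg.2 h)
          refine Or.inr (Or.inr ⟨n, ?_⟩)
          show g (-(n : ℤ)) = g a
          rw [← hn, neg_neg]
  · rintro ((h | ⟨n, h⟩) | (h | ⟨n, h⟩))
    · exact ⟨((⊤ : WithTop ℤ) : WithBot (WithTop ℤ)), h.symm⟩
    · exact ⟨(((n : ℤ) : WithTop ℤ) : WithBot (WithTop ℤ)), h⟩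
    · exact ⟨⊥, h.symm⟩
    · exact ⟨(((-(n : ℤ) : ℤ) : WithTop ℤ) : WithBot (WithTop ℤ)), h⟩

theorem compact_range_f : IsCompact (range f) := by
  rw [range_f]
  exact tendsto_g.isCompact_insert_range.union tendsto_g'.isCompact_insert_range

/-- **Q1 (Halmos).** The chain `1 + *ω + ω + 1`, that is `ℤ` with a new least and a new greatest
element, is the lattice of closed invariant subspaces of a bounded operator on a separable complex
Hilbert space. -/
theorem result : ∃ (H : Type) (_ : NormedAddCommGroup H) (_ : InnerProductSpace ℂ H)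
    (_ : CompleteSpace H) (_ : TopologicalSpace.SeparableSpace H) (A : H →L[ℂ] H),
    Nonempty (WithBot (WithTop ℤ) ≃o
      {M : Submodule ℂ H // IsClosed (M : Set H) ∧ ∀ x ∈ M, A x ∈ M}) := by
  obtain ⟨H, i1, i2, i3, i4, T, ⟨e⟩⟩ := Pool.Agent.Helper159.compact_attainable (range f)
    (range_nonempty f) compact_range_f
  exact ⟨H, i1, i2, i3, i4, T, ⟨(f_strictMono.orderIso).trans e⟩⟩

end Pool.Agent.Results.MP_1e8505_an.ChainAttainable
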