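import Mathlib
import Pool.Agent.W597.Halmos.Order

set_option autoImplicit false

/-!
MP_1e8505_an, Q2 (and Q1).  The bilateral weighted shift `W e_n = 2^{-|n|} e_{n+1}` has only the
obvious closed invariant subspaces, so that its lattice of invariant subspaces has the order type
of the integers with a new least and a new greatest element.
-/

namespace Pool.Agent.Results.MP_1e8505_an.HalmosShift

/-- `obvious e k` is the closed linear span of the basis vectors `e n` with `k ≤ n`. -/
noncomputable def obvious {H : Type} [NormedAddCommGroup H] [InnerProductSpace ℂ H]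
    (e : HilbertBasis ℤ ℂ H) (k : ℤ) : Submodule ℂ H :=
  (Submodule.span ℂ (e '' Set.Ici k)).topologicalClosure

/-- **Halmos's bilateral weighted shift.**  (1) Let `e` be an orthonormal (Hilbert) basis of a
complex Hilbert space `H` indexed by the integers and let `W` be a bounded operator with
`W e_n = 2^{-|n|} e_{n+1}` for all `n`.  A linear subspace `M` of `H` is closed and invariant under
`W` if and only if it is `0`, `H` or the closed span of `{e_n : n ≥ k}` for some integer `k`; and
the set of closed invariant subspaces, ordered by inclusion, is order isomorphic to the integers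
with a new least and a new greatest element.  (2) On every such `H` there is such a `W`, and `H` is
separable; and such an `H` exists. -/
theorem result :
    (∀ (H : Type) [NormedAddCommGroup H] [InnerProductSpace ℂ H] [CompleteSpace H]
      (e : HilbertBasis ℤ ℂ H) (W : H →L[ℂ] H),
      (∀ n : ℤ, W (e n) = ((1 / 2 : ℂ) ^ n.natAbs) • e (n + 1)) →
        (∀ M : Submodule ℂ H, (IsClosed (M : Set H) ∧ ∀ x ∈ M, W x ∈ M) ↔
          (M = ⊥ ∨ M = ⊤ ∨ ∃ k : ℤ, M = obvious e k)) ∧
        Nonempty ({M : Submodule ℂ H // IsClosed (M : Set H) ∧ ∀ x ∈ M, W x ∈ M} ≃o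
          WithBot (WithTop ℤ))) ∧
    (∀ (H : Type) [NormedAddCommGroup H] [InnerProductSpace ℂ H] [CompleteSpace H]
      (e : HilbertBasis ℤ ℂ H), TopologicalSpace.SeparableSpace H ∧
        ∃ W : H →L[ℂ] H, ∀ n : ℤ, W (e n) = ((1 / 2 : ℂ) ^ n.natAbs) • e (n + 1)) ∧
    ∃ (H : Type) (_ : NormedAddCommGroup H) (_ : InnerProductSpace ℂ H) (_ : CompleteSpace H),
      Nonempty (HilbertBasis ℤ ℂ H) := by
  refine ⟨?_, ?_, ?_⟩
  · intro H _ _ _ e W hW
    exact ⟨fun M => W597.Halmos.classify_iff e W hW M, W597.Halmos.order_type e W hW⟩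
  · intro H _ _ _ e
    exact ⟨W597.Halmos.separable e, W597.Halmos.exists_shift e⟩
  · exact ⟨lp (fun _ : ℤ => ℂ) 2, inferInstance, inferInstance, inferInstance,
      ⟨HilbertBasis.ofRepr (LinearIsometryEquiv.refl ℂ _)⟩⟩

end Pool.Agent.Results.MP_1e8505_an.HalmosShift
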